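import Pool.Agent.Run7.h536.MD.Q0b

set_option autoImplicit false

/-! Piece Q0 of project MD. -/

namespace Pool.Agent.Run7.h536.MD

open Complex Filter Topology Set
open Pool.Agent.Q48.MDS Pool.Agent.N879.QM Pool.Agent.Run7.h473.MD

noncomputable section

lemma LL_series (d : ℕ) (hd : d ≠ 0) (s : ℂ) (hs : 1 < s.re) :
    LL 1 d s = ∑' n : ℕ, vl 1 d (n + 1) * ex s ((n + 1 : ℕ) : ℝ) := by
  haveI : NeZero d := ⟨hd⟩
  unfold LL
  rw [dif_pos hd, DirichletCharacter.LFunction_eq_LSeries _ hs]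
  have hsum : LSeriesSummable (fun n => (ch 1 d) (n : ZMod d)) s := DirichletCharacter.LSeriesSummable_of_one_lt_re _ hs
  unfold LSeries
  rw [Summable.tsum_eq_zero_add hsum, LSeries.term_zero, zero_add]
  apply tsum_congr
  intro n
  rw [LSeries.term_of_ne_zero (Nat.succ_ne_zero n), div_eq_mul_inv, ← Complex.cpow_neg, ex_nat s (n + 1) (Nat.succ_ne_zero n)]
  rfl

/-- the bound of the `L`-functions -/
def BB : ℝ := ∑' n : ℕ, ((n + 1 : ℕ) : ℝ) ^ (-(7 / 4) : ℝ)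

lemma sum74 : Summable (fun q : ℕ => ((q + 1 : ℕ) : ℝ) ^ (-(7 / 4) : ℝ)) :=
  (summable_nat_add_iff 1).2 (Real.summable_nat_rpow.2 (by norm_num))

lemma BB_nonneg : 0 ≤ BB := tsum_nonneg fun _ => by positivity

lemma norm_ex_le (s : ℂ) (hs : 7 / 4 < s.re) (n : ℕ) : ‖ex s ((n + 1 : ℕ) : ℝ)‖ ≤ ((n + 1 : ℕ) : ℝ) ^ (-(7 / 4) : ℝ) := by
  have hq0 : (0 : ℝ) < ((n + 1 : ℕ) : ℝ) := by positivity
  have hq1 : (1 : ℝ) ≤ ((n + 1 : ℕ) : ℝ) := by exact_mod_cast Nat.succ_le_succ (Nat.zero_le n)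
  rw [norm_ex _ hq0]
  exact Real.rpow_le_rpow_of_exponent_le hq1 (by linarith)

lemma norm_LL (d : ℕ) (hd : d ≠ 0) (s : ℂ) (hs : 7 / 4 < s.re) : ‖LL 1 d s‖ ≤ BB := by
  rw [LL_series d hd s (by linarith)]
  apply tsum_of_norm_bounded sum74.hasSum
  intro n
  rw [norm_mul]
  have h1 := norm_vl d (n + 1)
  have h2 := norm_ex_le s hs n
  calc ‖vl 1 d (n + 1)‖ * ‖ex s ((n + 1 : ℕ) : ℝ)‖ ≤ 1 * ((n + 1 : ℕ) : ℝ) ^ (-(7 / 4) : ℝ) :=
        mul_le_mul h1 h2 (norm_nonneg _) zero_le_one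
    _ = _ := one_mul _

lemma cd_zero (k M : ℕ) (z : Fin (k + 1) → ℂ) : cd k M 0 z = 0 := by
  unfold cd
  rw [if_neg]
  rintro ⟨h, _⟩
  omega

lemma norm_cd (k M d : ℕ) (z : Fin (k + 1) → ℂ) (hz : ∀ j : Fin k, 7 / 4 < (z j.succ).re) :
    ‖cd k M (d + 1) z‖ ≤ BB ^ k * ((d + 1 : ℕ) : ℝ) ^ (-(z 0).re) := by
  unfold cd
  have hq0 : (0 : ℝ) < ((d + 1 : ℕ) : ℝ) := by positivity
  split_ifs with h
  · rw [norm_mul, norm_mul, ex_nat _ (d + 1) (Nat.succ_ne_zero d), norm_ex _ hq0, norm_prod]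
    have h1 := norm_vl (d + 1) M
    have h2 : ∏ j : Fin k, ‖LL 1 (d + 1) (z j.succ)‖ ≤ ∏ j : Fin k, BB := by
      apply Finset.prod_le_prod
      · intro j _
        exact norm_nonneg _
      · intro j _
        exact norm_LL (d + 1) (Nat.succ_ne_zero d) _ (hz j)
    rw [Finset.prod_const, Finset.card_univ, Fintype.card_fin] at h2
    calc ‖vl 1 (d + 1) M‖ * ((d + 1 : ℕ) : ℝ) ^ (-(z 0).re) * ∏ j : Fin k, ‖LL 1 (d + 1) (z j.succ)‖ ≤
        1 * ((d + 1 : ℕ) : ℝ) ^ (-(z 0).re) * BB ^ k := by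
          apply mul_le_mul (mul_le_mul_of_nonneg_right h1 (by positivity)) h2 (Finset.prod_nonneg fun _ _ => norm_nonneg _)
          positivity
      _ = _ := by ring
  · rw [norm_zero]
    have := BB_nonneg
    positivity

lemma Hs_shift (k M : ℕ) (z : Fin (k + 1) → ℂ) (h0 : 1 < (z 0).re) (hz : ∀ j : Fin k, 7 / 4 < (z j.succ).re) :
    Hs k M z = ∑' d : ℕ, cd k M (d + 1) z := by
  unfold Hs
  have hs : Summable (fun d : ℕ => cd k M d z) := by
    apply (summable_nat_add_iff 1).1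
    apply Summable.of_norm_bounded (g := fun d : ℕ => BB ^ k * ((d + 1 : ℕ) : ℝ) ^ (-(z 0).re))
    · apply Summable.mul_left
      exact (summable_nat_add_iff 1).2 (Real.summable_nat_rpow.2 (by linarith))
    · intro d
      exact norm_cd k M d z hz
  rw [hs.tsum_eq_zero_add, cd_zero, zero_add]

/-- the continuation agrees with `(w - 1) Hs` -/
theorem XX_eq (hA : S_AVG) (k : ℕ) : ∀ M : ℕ, 1 ≤ M → ∀ z : Fin (k + 1) → ℂ, 1 < (z 0).re → (∀ j : Fin k, 7 / 4 < (z j.succ).re) →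
    XX k M z = (z 0 - 1) * Hs k M z := by
  induction k with
  | zero =>
    intro M hM z h0 hz
    obtain ⟨C, hC, hAV⟩ := hA
    rw [Hs_shift 0 M z h0 hz]
    have h1 := base_sum (cM M) (z 0) h0 (en M) (norm_en M) (en_zero M) (C * √M) (fun N hN => E_le hAV M hM N hN)
    show cM M * z 0 + ∑' q : ℕ, f0 M q (z 0) = _
    unfold f0
    rw [← h1]
    congr 1
    apply tsum_congr
    intro q
    unfold en cd
    split_ifs
    · simp
    · simp
  | succ k ih =>
    intro M hM z h0 hz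
    rw [Hs_shift (k + 1) M z h0 hz]
    have hlast : 7 / 4 < (z (Fin.last (k + 1))).re := by
      have := hz (Fin.last k)
      rwa [Fin.succ_last] at this
    have hz' : ∀ j : Fin k, 7 / 4 < ((Fin.init z : Fin (k + 1) → ℂ) j.succ).re := fun j => hz j.castSucc
    have h0' : 1 < ((Fin.init z : Fin (k + 1) → ℂ) 0).re := h0
    have hstep : ∀ d : ℕ, cd (k + 1) M (d + 1) z =
        ∑' n : ℕ, ex (z (Fin.last (k + 1))) ((n + 1 : ℕ) : ℝ) * cd k (M * (n + 1)) (d + 1) (Fin.init z) := by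
      intro d
      unfold cd
      split_ifs with h
      · rw [Fin.prod_univ_castSucc, Fin.succ_last, LL_series (d + 1) (Nat.succ_ne_zero d) _ (by linarith), ← mul_assoc,
          ← tsum_mul_left]
        apply tsum_congr
        intro n
        have hv : vl 1 (d + 1) (M * (n + 1)) = vl 1 (d + 1) M * vl 1 (d + 1) (n + 1) := by
          unfold vl
          rw [Nat.cast_mul, map_mul]
        rw [hv]
        have hp : ∏ j : Fin k, LL 1 (d + 1) (z j.castSucc.succ) = ∏ j : Fin k, LL 1 (d + 1) ((Fin.init z : Fin (k + 1) → ℂ) j.succ) := rfl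
        have hz0 : (Fin.init z : Fin (k + 1) → ℂ) 0 = z 0 := rfl
        rw [hp, hz0]
        ring
      · simp
    have hS : Summable (Function.uncurry (fun (d n : ℕ) => ex (z (Fin.last (k + 1))) ((n + 1 : ℕ) : ℝ) *
        cd k (M * (n + 1)) (d + 1) (Fin.init z))) := by
      have hb : Summable (fun x : ℕ × ℕ => (BB ^ k * ((x.1 + 1 : ℕ) : ℝ) ^ (-(z 0).re)) * ((x.2 + 1 : ℕ) : ℝ) ^ (-(7 / 4) : ℝ)) := by
        apply Summable.mul_of_nonneg (f := fun d : ℕ => BB ^ k * ((d + 1 : ℕ) : ℝ) ^ (-(z 0).re))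
          (g := fun n : ℕ => ((n + 1 : ℕ) : ℝ) ^ (-(7 / 4) : ℝ))
        · apply Summable.mul_left
          exact (summable_nat_add_iff 1).2 (Real.summable_nat_rpow.2 (by linarith))
        · exact sum74
        · intro d
          have := BB_nonneg
          show (0 : ℝ) ≤ BB ^ k * ((d + 1 : ℕ) : ℝ) ^ (-(z 0).re)
          positivity
        · intro n
          show (0 : ℝ) ≤ ((n + 1 : ℕ) : ℝ) ^ (-(7 / 4) : ℝ)
          positivity
      refine Summable.of_norm_bounded hb (fun x => ?_)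
      obtain ⟨d, n⟩ := x
      simp only [Function.uncurry_apply_pair]
      rw [norm_mul, mul_comm]
      have h1 := norm_cd k (M * (n + 1)) d (Fin.init z) hz'
      have h2 := norm_ex_le _ hlast n
      have := BB_nonneg
      exact mul_le_mul h1 h2 (norm_nonneg _) (by positivity)
    have hcomm := hS.tsum_comm
    have e1 : ∑' d : ℕ, cd (k + 1) M (d + 1) z = ∑' d : ℕ, ∑' n : ℕ, ex (z (Fin.last (k + 1))) ((n + 1 : ℕ) : ℝ) *
        cd k (M * (n + 1)) (d + 1) (Fin.init z) := tsum_congr hstep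
    rw [e1, ← hcomm, ← tsum_mul_left]
    show ∑' n : ℕ, ex (z (Fin.last (k + 1))) ((n + 1 : ℕ) : ℝ) * XX k (M * (n + 1)) (Fin.init z) = _
    apply tsum_congr
    intro n
    rw [ih (M * (n + 1)) (Nat.mul_pos hM (Nat.succ_pos n)) (Fin.init z) h0' hz', Hs_shift k (M * (n + 1)) (Fin.init z) h0' hz',
      tsum_mul_left]
    have hz0 : (Fin.init z : Fin (k + 1) → ℂ) 0 = z 0 := rfl
    rw [hz0]
    ring

lemma tempered_mul {n : ℕ} {Ω : Set (Fin n → ℝ)} {f g : (Fin n → ℂ) → ℂ} (hf : Tempered Ω f) (hg : Tempered Ω g) :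
    Tempered Ω (fun z => f z * g z) := by
  refine ⟨hf.1.mul hg.1, fun K hK hc => ?_⟩
  obtain ⟨C, N, h1⟩ := hf.2 K hK hc
  obtain ⟨C', N', h2⟩ := hg.2 K hK hc
  refine ⟨|C| * |C'|, N + N', fun z hz => ?_⟩
  rw [norm_mul]
  have e0 : 0 ≤ 1 + ‖fun i => (z i).im‖ := by positivity
  calc ‖f z‖ * ‖g z‖ ≤ (|C| * (1 + ‖fun i => (z i).im‖) ^ N) * (|C'| * (1 + ‖fun i => (z i).im‖) ^ N') := by
        apply mul_le_mul _ _ (norm_nonneg _) (by positivity)
        · exact (h1 z hz).trans (mul_le_mul_of_nonneg_right (le_abs_self C) (by positivity))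
        · exact (h2 z hz).trans (mul_le_mul_of_nonneg_right (le_abs_self C') (by positivity))
    _ = _ := by rw [pow_add]; ring

lemma tempered_sigma {k : ℕ} (Ω : Set (Fin (k + 1) → ℝ)) (J : Finset (Fin k)) : Tempered Ω (fun z => sigma J z - 1) := by
  refine ⟨((differentiable_sigma J).sub_const 1).differentiableOn, fun K hK hc => ?_⟩
  obtain ⟨A, hA⟩ := hc.exists_bound_of_continuousOn (f := fun p : Fin (k + 1) → ℝ => p) continuous_id.continuousOn
  refine ⟨(k + 1) * (|A| + 1) + k + 1, 1, fun z hz => ?_⟩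
  have hz1 : ∀ i, ‖z i‖ ≤ (|A| + 1) * (1 + ‖fun i => (z i).im‖) := by
    intro i
    have h1 : |(z i).re| ≤ ‖fun i => (z i).re‖ := norm_le_pi_norm (fun i => (z i).re) i
    have h2 : |(z i).im| ≤ ‖fun i => (z i).im‖ := norm_le_pi_norm (fun i => (z i).im) i
    have h3 := Complex.norm_le_abs_re_add_abs_im (z i)
    have h4 := hA _ hz
    have h5 := le_abs_self A
    have h6 := abs_nonneg A
    have h7 := norm_nonneg (fun i => (z i).im)
    nlinarith
  obtain ⟨t, ht⟩ : ∃ t : ℝ, t = 1 + ‖fun i => (z i).im‖ := ⟨_, rfl⟩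
  have ht1 : 1 ≤ t := by rw [ht]; linarith [norm_nonneg (fun i => (z i).im)]
  rw [← ht] at hz1 ⊢
  rw [pow_one]
  unfold sigma
  have hJ : (J.card : ℝ) ≤ k := by
    have := Finset.card_le_univ J
    rw [Fintype.card_fin] at this
    exact_mod_cast this
  have hsum : ‖∑ j ∈ J, z j.succ‖ ≤ k * ((|A| + 1) * t) := by
    refine (norm_sum_le _ _).trans ?_
    refine (Finset.sum_le_card_nsmul _ _ _ (fun j _ => hz1 j.succ)).trans ?_
    rw [nsmul_eq_mul]
    exact mul_le_mul_of_nonneg_right hJ (by positivity)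
  have hc2 : ‖(J.card : ℂ) / 2‖ ≤ k := by
    rw [norm_div, Complex.norm_natCast, Complex.norm_ofNat]
    linarith [Nat.cast_nonneg (α := ℝ) J.card]
  have h8 := hz1 0
  calc ‖z 0 - (J.card : ℂ) / 2 + ∑ j ∈ J, z j.succ - 1‖ ≤ ‖z 0 - (J.card : ℂ) / 2 + ∑ j ∈ J, z j.succ‖ + ‖(1 : ℂ)‖ := norm_sub_le _ _
    _ ≤ ‖z 0 - (J.card : ℂ) / 2‖ + ‖∑ j ∈ J, z j.succ‖ + ‖(1 : ℂ)‖ := by
        have := norm_add_le (z 0 - (J.card : ℂ) / 2) (∑ j ∈ J, z j.succ)
        linarith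
    _ ≤ ‖z 0‖ + ‖(J.card : ℂ) / 2‖ + ‖∑ j ∈ J, z j.succ‖ + ‖(1 : ℂ)‖ := by
        have := norm_sub_le (z 0) ((J.card : ℂ) / 2)
        linarith
    _ ≤ (|A| + 1) * t + k + k * ((|A| + 1) * t) + 1 := by
        rw [norm_one]
        linarith
    _ ≤ ((k + 1) * (|A| + 1) + k + 1) * t := by
        have h9 : (k : ℝ) ≤ k * t := by
          have := mul_le_mul_of_nonneg_left ht1 (Nat.cast_nonneg (α := ℝ) k)
          linarith
        nlinarith

lemma tempered_prod {k : ℕ} (Ω : Set (Fin (k + 1) → ℝ)) (T : Finset (Finset (Fin k))) :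
    Tempered Ω (fun z => ∏ J ∈ T, (sigma J z - 1)) := by
  classical
  induction T using Finset.induction_on with
  | empty =>
    simp only [Finset.prod_empty]
    refine ⟨differentiableOn_const _, fun K _ _ => ⟨1, 0, fun z _ => by simp⟩⟩
  | insert J T hJ ih =>
    have := tempered_mul (tempered_sigma Ω J) ih
    simp only [Finset.prod_insert hJ]
    exact this

/-- **Piece Q0.** -/
theorem t_Q0 (hA : S_AVG) (hS : S_SER) (hE : S_EQ) (hG : S_GLU) : S_Q0 := by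
  classical
  intro k M hM
  obtain ⟨h1, h2⟩ := XX_main hA hS k
  have hX : Tempered (Om k) (XX k M) := by
    refine ⟨h1 M hM, fun K hK hc => ?_⟩
    obtain ⟨C, N, hC0, hC⟩ := h2 K hK hc
    refine ⟨C * √M, N, fun z hz => ?_⟩
    refine (hC M hM z hz).trans (le_of_eq ?_)
    ring
  refine hG k M (Om k) (fun z => XX k M z * ∏ J ∈ Finset.univ.erase (∅ : Finset (Fin k)), (sigma J z - 1)) hM (isOpen_Om k)
    (convex_Om k) ⟨fun _ => 2, ⟨by norm_num, fun _ => by norm_num⟩, fun _ => by norm_num⟩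
    (tempered_mul hX (tempered_prod _ _)) ?_ _ ?_
  · intro z hz
    obtain ⟨⟨h3, h4⟩, h5⟩ := hz
    have h6 : 1 < (z 0).re := h5 0
    rw [hE k M hM h5]
    show XX k M z * ∏ J ∈ Finset.univ.erase (∅ : Finset (Fin k)), (sigma J z - 1) = Hs k M z * PP k z
    rw [XX_eq hA k M hM z h6 h4]
    unfold PP
    rw [← Finset.mul_prod_erase Finset.univ (fun J => sigma J z - 1) (Finset.mem_univ (∅ : Finset (Fin k)))]
    have e : sigma (∅ : Finset (Fin k)) z = z 0 := by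
      unfold sigma
      simp
    rw [e]
    ring
  · refine ⟨?_, fun j => ?_⟩
    · rw [Fin.cons_zero]
      norm_num
    · rw [Fin.cons_succ]
      norm_num

end

end Pool.Agent.Run7.h536.MD
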