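import Pool.Agent.Run7.h473.MD.Iface

set_option autoImplicit false

/-! Piece Q0 of project MD: one point with `w < 1`. Elementary part. -/

namespace Pool.Agent.Run7.h536.MD

open Complex Filter Topology

noncomputable section

/-- `x ^ (-w)` -/
def ex (w : ℂ) (x : ℝ) : ℂ := Complex.exp (-w * (Real.log x : ℂ))

lemma ex_nat (w : ℂ) (n : ℕ) (hn : n ≠ 0) : (n : ℂ) ^ (-w) = ex w n := by
  unfold ex
  rw [Complex.cpow_def_of_ne_zero (by exact_mod_cast hn), Complex.natCast_log, mul_comm]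

lemma norm_ex (w : ℂ) {x : ℝ} (hx : 0 < x) : ‖ex w x‖ = x ^ (-w.re) := by
  unfold ex
  rw [Complex.norm_exp, Real.rpow_def_of_pos hx]
  congr 1
  simp [Complex.mul_re]
  ring

lemma hasDeriv_ex (w : ℂ) {x : ℝ} (hx : 0 < x) : HasDerivAt (ex w) (-w * ((x⁻¹ : ℝ) : ℂ) * ex w x) x := by
  have h1 : HasDerivAt (fun y : ℝ => ((Real.log y : ℝ) : ℂ)) (((x⁻¹ : ℝ) : ℂ)) x := (Real.hasDerivAt_log hx.ne').ofReal_comp
  have h2 := (h1.const_mul (-w)).cexp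
  unfold ex
  convert h2 using 1
  ring

lemma ex_mul (w : ℂ) {x : ℝ} (hx : 0 < x) : ((x⁻¹ : ℝ) : ℂ) * ex (w - 1) x = ex w x := by
  unfold ex
  have h : (((x⁻¹ : ℝ)) : ℂ) = Complex.exp (-(Real.log x : ℂ)) := by
    rw [← Complex.ofReal_neg, ← Complex.ofReal_exp, Real.exp_neg, Real.exp_log hx]
  rw [h, ← Complex.exp_add]
  congr 1
  ring

lemma ex_sub_le (w : ℂ) (hw : 0 ≤ w.re) {a b : ℝ} (ha : 0 < a) (hab : a ≤ b) :
    ‖ex w b - ex w a‖ ≤ ‖w‖ * a ^ (-w.re - 1) * (b - a) := by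
  have h := Convex.norm_image_sub_le_of_norm_hasDerivWithin_le (f := ex w) (f' := fun x => -w * ((x⁻¹ : ℝ) : ℂ) * ex w x)
    (s := Set.Icc a b) (C := ‖w‖ * a ^ (-w.re - 1)) (x := a) (y := b)
    (fun x hx => (hasDeriv_ex w (lt_of_lt_of_le ha hx.1)).hasDerivWithinAt) (fun x hx => ?_) (convex_Icc a b)
    (Set.left_mem_Icc.2 hab) (Set.right_mem_Icc.2 hab)
  · rwa [Real.norm_of_nonneg (by linarith)] at h
  · have hx0 : 0 < x := lt_of_lt_of_le ha hx.1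
    rw [norm_mul, norm_mul, norm_neg, norm_ex w hx0, Complex.norm_real, Real.norm_of_nonneg (by positivity), mul_assoc]
    apply mul_le_mul_of_nonneg_left _ (norm_nonneg _)
    have e : x⁻¹ * x ^ (-w.re) = x ^ (-w.re - 1) := by
      rw [Real.rpow_sub hx0, Real.rpow_one]
      field_simp
    rw [e]
    exact Real.rpow_le_rpow_of_nonpos ha hx.1 (by linarith)

/-- `(w - 1) q ^ (-w) - (q ^ (1 - w) - (q + 1) ^ (1 - w))` -/
def zq (w : ℂ) (q : ℝ) : ℂ := (w - 1) * ex w q - (ex (w - 1) q - ex (w - 1) (q + 1))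

lemma norm_zq (w : ℂ) (hw : 0 ≤ w.re) {q : ℝ} (hq : 0 < q) : ‖zq w q‖ ≤ ‖w - 1‖ * ‖w‖ * q ^ (-w.re - 1) := by
  have hd : ∀ x ∈ Set.Icc q (q + 1), HasDerivWithinAt (fun x : ℝ => ex (w - 1) x + (w - 1) * ex w q * (x : ℂ))
      (-(w - 1) * (ex w x - ex w q)) (Set.Icc q (q + 1)) x := by
    intro x hx
    have hx0 : 0 < x := lt_of_lt_of_le hq hx.1
    have h1 := hasDeriv_ex (w - 1) hx0
    have h2 : HasDerivAt (fun x : ℝ => (w - 1) * ex w q * (x : ℂ)) ((w - 1) * ex w q * ((1 : ℝ) : ℂ)) x :=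
      ((hasDerivAt_id x).ofReal_comp).const_mul _
    have h3 : HasDerivAt (fun x : ℝ => ex (w - 1) x + (w - 1) * ex w q * (x : ℂ))
        (-(w - 1) * ((x⁻¹ : ℝ) : ℂ) * ex (w - 1) x + (w - 1) * ex w q * ((1 : ℝ) : ℂ)) x := h1.add h2
    apply HasDerivAt.hasDerivWithinAt
    have hval : -(w - 1) * (ex w x - ex w q) = -(w - 1) * ((x⁻¹ : ℝ) : ℂ) * ex (w - 1) x + (w - 1) * ex w q * ((1 : ℝ) : ℂ) := by
      rw [mul_assoc (-(w - 1)), ex_mul w hx0, Complex.ofReal_one]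
      ring
    rw [hval]
    exact h3
  have h := Convex.norm_image_sub_le_of_norm_hasDerivWithin_le (C := ‖w - 1‖ * ‖w‖ * q ^ (-w.re - 1)) hd (fun x hx => ?_)
    (convex_Icc q (q + 1)) (Set.left_mem_Icc.2 (by linarith)) (Set.right_mem_Icc.2 (by linarith))
  · have e : (fun x : ℝ => ex (w - 1) x + (w - 1) * ex w q * (x : ℂ)) (q + 1) -
        (fun x : ℝ => ex (w - 1) x + (w - 1) * ex w q * (x : ℂ)) q = zq w q := by
      unfold zq
      push_cast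
      ring
    rw [e] at h
    have e2 : ‖q + 1 - q‖ = 1 := by
      rw [add_sub_cancel_left]
      exact norm_one
    rwa [e2, mul_one] at h
  · have h4 := ex_sub_le w hw hq hx.1
    rw [norm_mul, norm_neg, mul_assoc]
    apply mul_le_mul_of_nonneg_left _ (norm_nonneg _)
    refine h4.trans ?_
    have h5 : x - q ≤ 1 := by linarith [hx.2]
    have h6 : 0 ≤ ‖w‖ * q ^ (-w.re - 1) := by positivity
    nlinarith [hx.1]

/-- the telescoping identity -/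
lemma base_sum (c w : ℂ) (hw : 1 < w.re) (e : ℕ → ℂ) (he : ∀ q, ‖e q‖ ≤ 1) (he0 : e 0 = 0) (D : ℝ)
    (hE : ∀ N : ℕ, 1 ≤ N → ‖(∑ q ∈ Finset.range N, e q) - c * N‖ ≤ D * √N) :
    (w - 1) * ∑' q : ℕ, e (q + 1) * ((q + 1 : ℕ) : ℂ) ^ (-w) = c * w + ∑' q : ℕ, (c * zq w ((q + 1 : ℕ) : ℝ) +
      (w - 1) * ((∑ r ∈ Finset.range (q + 2), e r) - c * ((q + 2 : ℕ) : ℂ)) * (ex w ((q + 1 : ℕ) : ℝ) - ex w ((q + 2 : ℕ) : ℝ))) := by
  obtain ⟨E, hEd⟩ : ∃ E : ℕ → ℂ, E = fun N => (∑ q ∈ Finset.range N, e q) - c * N := ⟨_, rfl⟩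
  have hEN : ∀ N : ℕ, 1 ≤ N → ‖E N‖ ≤ D * √N := by
    intro N hN
    rw [hEd]
    exact hE N hN
  have hD : 0 ≤ D := by
    have := (norm_nonneg _).trans (hEN 1 le_rfl)
    simpa using this
  -- summability
  have hs1 : Summable (fun q : ℕ => (w - 1) * (e (q + 1) * ((q + 1 : ℕ) : ℂ) ^ (-w))) := by
    have hb : Summable (fun q : ℕ => ‖w - 1‖ * ((q + 1 : ℕ) : ℝ) ^ (-w.re)) := by
      apply Summable.mul_left
      exact (summable_nat_add_iff 1).2 (Real.summable_nat_rpow.2 (by linarith))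
    refine Summable.of_norm_bounded hb (fun q => ?_)
    rw [norm_mul, norm_mul, ex_nat w (q + 1) (Nat.succ_ne_zero q), norm_ex w (by positivity)]
    apply mul_le_mul_of_nonneg_left _ (norm_nonneg _)
    have := he (q + 1)
    have h1 : 0 ≤ ((q + 1 : ℕ) : ℝ) ^ (-w.re) := by positivity
    nlinarith
  have hs2 : Summable (fun q : ℕ => c * zq w ((q + 1 : ℕ) : ℝ) + (w - 1) * E (q + 2) * (ex w ((q + 1 : ℕ) : ℝ) - ex w ((q + 2 : ℕ) : ℝ))) := by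
    have hb : Summable (fun q : ℕ => (‖c‖ * (‖w - 1‖ * ‖w‖) + ‖w - 1‖ * (D * 2) * ‖w‖) * ((q + 1 : ℕ) : ℝ) ^ (-w.re - 1 / 2)) := by
      apply Summable.mul_left
      exact (summable_nat_add_iff 1).2 (Real.summable_nat_rpow.2 (by linarith))
    refine Summable.of_norm_bounded hb (fun q => ?_)
    have hq0 : (0 : ℝ) < ((q + 1 : ℕ) : ℝ) := by positivity
    have hq1 : (1 : ℝ) ≤ ((q + 1 : ℕ) : ℝ) := by exact_mod_cast Nat.succ_le_succ (Nat.zero_le q)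
    have h1 := norm_zq w (by linarith) hq0
    have h2 := ex_sub_le w (by linarith) hq0 (show ((q + 1 : ℕ) : ℝ) ≤ ((q + 2 : ℕ) : ℝ) by push_cast; linarith)
    have e1 : ((q + 2 : ℕ) : ℝ) - ((q + 1 : ℕ) : ℝ) = 1 := by push_cast; ring
    rw [e1, mul_one, norm_sub_rev] at h2
    have h3 := hEN (q + 2) (by omega)
    have h4 : √((q + 2 : ℕ) : ℝ) ≤ 2 * ((q + 1 : ℕ) : ℝ) ^ (1 / 2 : ℝ) := by
      rw [← Real.sqrt_eq_rpow, Real.sqrt_le_left (by positivity), mul_pow, Real.sq_sqrt hq0.le]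
      push_cast
      linarith [Nat.cast_nonneg (α := ℝ) q]
    have e2 : ((q + 1 : ℕ) : ℝ) ^ (1 / 2 : ℝ) * ((q + 1 : ℕ) : ℝ) ^ (-w.re - 1) = ((q + 1 : ℕ) : ℝ) ^ (-w.re - 1 / 2) := by
      rw [← Real.rpow_add hq0]
      congr 1
      ring
    have h5 : ((q + 1 : ℕ) : ℝ) ^ (-w.re - 1) ≤ ((q + 1 : ℕ) : ℝ) ^ (-w.re - 1 / 2) :=
      Real.rpow_le_rpow_of_exponent_le hq1 (by linarith)
    have h6 : 0 ≤ ((q + 1 : ℕ) : ℝ) ^ (-w.re - 1) := by positivity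
    calc ‖c * zq w ((q + 1 : ℕ) : ℝ) + (w - 1) * E (q + 2) * (ex w ((q + 1 : ℕ) : ℝ) - ex w ((q + 2 : ℕ) : ℝ))‖ ≤
        ‖c‖ * ‖zq w ((q + 1 : ℕ) : ℝ)‖ + ‖w - 1‖ * ‖E (q + 2)‖ * ‖ex w ((q + 1 : ℕ) : ℝ) - ex w ((q + 2 : ℕ) : ℝ)‖ := by
          refine (norm_add_le _ _).trans (le_of_eq ?_)
          rw [norm_mul, norm_mul, norm_mul]
      _ ≤ ‖c‖ * (‖w - 1‖ * ‖w‖ * ((q + 1 : ℕ) : ℝ) ^ (-w.re - 1)) +
          ‖w - 1‖ * (D * (2 * ((q + 1 : ℕ) : ℝ) ^ (1 / 2 : ℝ))) * (‖w‖ * ((q + 1 : ℕ) : ℝ) ^ (-w.re - 1)) := by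
          apply add_le_add (mul_le_mul_of_nonneg_left h1 (norm_nonneg _))
          apply mul_le_mul _ h2 (norm_nonneg _) (by positivity)
          apply mul_le_mul_of_nonneg_left _ (norm_nonneg _)
          exact h3.trans (mul_le_mul_of_nonneg_left h4 hD)
      _ = ‖c‖ * (‖w - 1‖ * ‖w‖) * ((q + 1 : ℕ) : ℝ) ^ (-w.re - 1) +
          ‖w - 1‖ * (D * 2) * ‖w‖ * (((q + 1 : ℕ) : ℝ) ^ (1 / 2 : ℝ) * ((q + 1 : ℕ) : ℝ) ^ (-w.re - 1)) := by ring
      _ ≤ ‖c‖ * (‖w - 1‖ * ‖w‖) * ((q + 1 : ℕ) : ℝ) ^ (-w.re - 1 / 2) +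
          ‖w - 1‖ * (D * 2) * ‖w‖ * ((q + 1 : ℕ) : ℝ) ^ (-w.re - 1 / 2) := by
          rw [e2]
          apply add_le_add_left
          apply mul_le_mul_of_nonneg_left h5 (by positivity)
      _ = _ := by ring
  obtain ⟨b, hb⟩ : ∃ b : ℕ → ℂ, b = fun q => (w - 1) * E (q + 1) * ex w ((q + 1 : ℕ) : ℝ) - c * ex (w - 1) ((q + 1 : ℕ) : ℝ) := ⟨_, rfl⟩
  have htel : ∀ q : ℕ, (w - 1) * (e (q + 1) * ((q + 1 : ℕ) : ℂ) ^ (-w)) -
      (c * zq w ((q + 1 : ℕ) : ℝ) + (w - 1) * E (q + 2) * (ex w ((q + 1 : ℕ) : ℝ) - ex w ((q + 2 : ℕ) : ℝ))) = b (q + 1) - b q := by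
    intro q
    have h1 : E (q + 2) = E (q + 1) + e (q + 1) - c := by
      rw [hEd]
      simp only
      rw [Finset.sum_range_succ _ (q + 1)]
      push_cast
      ring
    rw [ex_nat w (q + 1) (Nat.succ_ne_zero q), hb]
    simp only
    unfold zq
    have e3 : ((q + 1 : ℕ) : ℝ) + 1 = ((q + 1 + 1 : ℕ) : ℝ) := by push_cast; ring
    rw [e3, show q + 1 + 1 = q + 2 by ring, h1]
    ring
  have hlim : Tendsto b atTop (𝓝 0) := by
    rw [hb]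
    have hl1 : Tendsto (fun q : ℕ => (w - 1) * E (q + 1) * ex w ((q + 1 : ℕ) : ℝ)) atTop (𝓝 0) := by
      apply squeeze_zero_norm (a := fun q : ℕ => ‖w - 1‖ * D * ((q + 1 : ℕ) : ℝ) ^ (-(w.re - 1 / 2)))
      · intro q
        have hq0 : (0 : ℝ) < ((q + 1 : ℕ) : ℝ) := by positivity
        rw [norm_mul, norm_mul, norm_ex w hq0]
        have e4 : ((q + 1 : ℕ) : ℝ) ^ (-(w.re - 1 / 2)) = √((q + 1 : ℕ) : ℝ) * ((q + 1 : ℕ) : ℝ) ^ (-w.re) := by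
          rw [Real.sqrt_eq_rpow, ← Real.rpow_add hq0]
          congr 1
          ring
        rw [e4]
        have h7 := hEN (q + 1) (by omega)
        calc ‖w - 1‖ * ‖E (q + 1)‖ * ((q + 1 : ℕ) : ℝ) ^ (-w.re) ≤ ‖w - 1‖ * (D * √((q + 1 : ℕ) : ℝ)) * ((q + 1 : ℕ) : ℝ) ^ (-w.re) := by
              apply mul_le_mul_of_nonneg_right _ (by positivity)
              exact mul_le_mul_of_nonneg_left h7 (norm_nonneg _)
          _ = _ := by ring
      · have h8 : Tendsto (fun q : ℕ => ((q + 1 : ℕ) : ℝ) ^ (-(w.re - 1 / 2))) atTop (𝓝 0) :=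
          (tendsto_rpow_neg_atTop (by linarith)).comp (tendsto_natCast_atTop_atTop.comp (tendsto_add_atTop_nat 1))
        simpa using h8.const_mul (‖w - 1‖ * D)
    have hl2 : Tendsto (fun q : ℕ => c * ex (w - 1) ((q + 1 : ℕ) : ℝ)) atTop (𝓝 0) := by
      apply squeeze_zero_norm (a := fun q : ℕ => ‖c‖ * ((q + 1 : ℕ) : ℝ) ^ (-(w.re - 1)))
      · intro q
        rw [norm_mul, norm_ex (w - 1) (by positivity)]
        simp
      · have h8 : Tendsto (fun q : ℕ => ((q + 1 : ℕ) : ℝ) ^ (-(w.re - 1))) atTop (𝓝 0) :=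
          (tendsto_rpow_neg_atTop (by linarith)).comp (tendsto_natCast_atTop_atTop.comp (tendsto_add_atTop_nat 1))
        simpa using h8.const_mul ‖c‖
    simpa using hl1.sub hl2
  have hsum := hs1.sub hs2
  have h9 := hsum.hasSum.tendsto_sum_nat
  have h10 : Tendsto (fun n => ∑ q ∈ Finset.range n, ((w - 1) * (e (q + 1) * ((q + 1 : ℕ) : ℂ) ^ (-w)) -
      (c * zq w ((q + 1 : ℕ) : ℝ) + (w - 1) * E (q + 2) * (ex w ((q + 1 : ℕ) : ℝ) - ex w ((q + 2 : ℕ) : ℝ))))) atTop (𝓝 (0 - b 0)) := by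
    simp only [htel]
    simp only [Finset.sum_range_sub]
    exact hlim.sub_const _
  have h11 := tendsto_nhds_unique h9 h10
  rw [hs1.tsum_sub hs2, tsum_mul_left] at h11
  have hE1 : E 1 = -c := by
    rw [hEd]
    simp [he0]
  have hb0 : b 0 = -(c * w) := by
    rw [hb]
    simp only [zero_add]
    rw [hE1]
    have e5 : ∀ v : ℂ, ex v ((1 : ℕ) : ℝ) = 1 := by
      intro v
      unfold ex
      simp
    rw [e5, e5]
    ring
  rw [hb0] at h11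
  have h12 : ∀ q : ℕ, (w - 1) * ((∑ r ∈ Finset.range (q + 2), e r) - c * ((q + 2 : ℕ) : ℂ)) = (w - 1) * E (q + 2) := by
    intro q
    rw [hEd]
  simp only [h12]
  linear_combination h11

end

end Pool.Agent.Run7.h536.MD
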