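import Pool.Agent.Run7.h536.MD.Q0a

set_option autoImplicit false

/-! Piece Q0 of project MD: the series. -/

namespace Pool.Agent.Run7.h536.MD

open Complex Filter Topology Set
open Pool.Agent.Q48.MDS Pool.Agent.N879.QM Pool.Agent.Run7.h473.MD

noncomputable section

open Classical in
def en (M q : ℕ) : ℂ := if Is 1 q then vl 1 q M else 0

open Classical in
def cM (M : ℕ) : ℂ := if IsSquare M then ((c0 * af M : ℝ) : ℂ) else 0

lemma norm_vl (q n : ℕ) : ‖vl 1 q n‖ ≤ 1 := by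
  unfold vl
  exact DirichletCharacter.norm_le_one _ _

lemma norm_en (M q : ℕ) : ‖en M q‖ ≤ 1 := by
  unfold en
  split_ifs
  · exact norm_vl q M
  · simp

lemma en_zero (M : ℕ) : en M 0 = 0 := by
  unfold en
  rw [if_neg]
  rintro ⟨h, _⟩
  omega

lemma sum_en (M N : ℕ) : ∑ q ∈ Finset.range N, en M q = ∑ q ∈ Q 1 (N : ℝ), vl 1 q M := by
  classical
  unfold Q en
  rw [Nat.ceil_natCast, ← Finset.sum_filter]
  apply Finset.sum_congr _ (fun _ _ => rfl)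
  ext q
  simp only [Finset.mem_filter, Finset.mem_range, Finset.mem_Ico]
  constructor
  · rintro ⟨h1, h2⟩
    exact ⟨⟨h2.1, h1⟩, h2⟩
  · rintro ⟨⟨_, h1⟩, h2⟩
    exact ⟨h1, h2⟩

lemma af_le (n : ℕ) : 0 ≤ af n ∧ af n ≤ 1 := by
  unfold af
  constructor
  · exact Finset.prod_nonneg fun p _ => by positivity
  · apply Finset.prod_le_one
    · intro p _
      positivity
    · intro p _
      rw [div_le_one (by positivity)]
      linarith

lemma norm_cM (M : ℕ) : ‖cM M‖ ≤ 1 := by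
  unfold cM
  split_ifs
  · rw [Complex.norm_real]
    have h1 : 0 ≤ c0 := by unfold c0; positivity
    have h2 : c0 ≤ 1 := by
      unfold c0
      rw [div_le_one (by positivity)]
      nlinarith [Real.pi_gt_three]
    obtain ⟨h3, h4⟩ := af_le M
    rw [Real.norm_of_nonneg (mul_nonneg h1 h3)]
    nlinarith
  · simp

lemma E_le {C : ℝ} (h : ∀ (s : ℤ) (X : ℝ) (n : ℕ), s = 1 ∨ s = -1 → 1 ≤ X → 1 ≤ n →
    (IsSquare n → ‖(∑ q ∈ Q s X, vl s q n) - ((c0 * X * af n : ℝ) : ℂ)‖ ≤ C * √X * √n) ∧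
    (¬ IsSquare n → ‖∑ q ∈ Q s X, vl s q n‖ ≤ C * √X * √n)) (M : ℕ) (hM : 1 ≤ M) (N : ℕ) (hN : 1 ≤ N) :
    ‖(∑ q ∈ Finset.range N, en M q) - cM M * N‖ ≤ (C * √M) * √N := by
  obtain ⟨h1, h2⟩ := h 1 N M (Or.inl rfl) (by exact_mod_cast hN) hM
  rw [sum_en]
  unfold cM
  split_ifs with hs
  · have := h1 hs
    have e : ((c0 * af M : ℝ) : ℂ) * (N : ℂ) = ((c0 * (N : ℝ) * af M : ℝ) : ℂ) := by push_cast; ring
    rw [e]
    calc _ ≤ C * √(N : ℝ) * √(M : ℝ) := this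
      _ = _ := by ring
  · rw [zero_mul, sub_zero]
    calc _ ≤ C * √(N : ℝ) * √(M : ℝ) := h2 hs
      _ = _ := by ring

def f0 (M q : ℕ) (w : ℂ) : ℂ := cM M * zq w ((q + 1 : ℕ) : ℝ) +
      (w - 1) * ((∑ r ∈ Finset.range (q + 2), en M r) - cM M * ((q + 2 : ℕ) : ℂ)) * (ex w ((q + 1 : ℕ) : ℝ) - ex w ((q + 2 : ℕ) : ℝ))

def XX : (k : ℕ) → ℕ → (Fin (k + 1) → ℂ) → ℂ
  | 0, M, z => cM M * z 0 + ∑' q : ℕ, f0 M q (z 0)
  | k + 1, M, z => ∑' n : ℕ, ex (z (Fin.last (k + 1))) ((n + 1 : ℕ) : ℝ) * XX k (M * (n + 1)) (Fin.init z)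

def Om (k : ℕ) : Set (Fin (k + 1) → ℝ) := {p | 3 / 5 < p 0 ∧ ∀ j : Fin k, 7 / 4 < p j.succ}

lemma isOpen_Om (k : ℕ) : IsOpen (Om k) := by
  have : Om k = {p : Fin (k + 1) → ℝ | 3 / 5 < p 0} ∩ ⋂ j : Fin k, {p : Fin (k + 1) → ℝ | 7 / 4 < p j.succ} := by
    ext p
    simp [Om]
  rw [this]
  apply IsOpen.inter
  · exact isOpen_lt continuous_const (continuous_apply 0)
  · exact isOpen_iInter_of_finite fun j => isOpen_lt continuous_const (continuous_apply _)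

lemma convex_Om (k : ℕ) : Convex ℝ (Om k) := by
  intro p hp q hq a b ha hb hab
  obtain ⟨h1, h2⟩ := hp
  obtain ⟨h3, h4⟩ := hq
  refine ⟨?_, fun j => ?_⟩
  · simp only [Pi.add_apply, Pi.smul_apply, smul_eq_mul]
    rcases ha.eq_or_lt with h | h
    · subst h
      have : b = 1 := by linarith
      subst this
      linarith
    · nlinarith
  · simp only [Pi.add_apply, Pi.smul_apply, smul_eq_mul]
    have h5 := h2 j
    have h6 := h4 j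
    rcases ha.eq_or_lt with h | h
    · subst h
      have : b = 1 := by linarith
      subst this
      linarith
    · nlinarith

lemma init_mem {k : ℕ} {p : Fin (k + 2) → ℝ} (hp : p ∈ Om (k + 1)) : (Fin.init p : Fin (k + 1) → ℝ) ∈ Om k := by
  obtain ⟨h1, h2⟩ := hp
  refine ⟨?_, fun j => ?_⟩
  · exact h1
  · have := h2 j.castSucc
    exact this

lemma diff_ex (x : ℝ) : Differentiable ℂ (fun w : ℂ => ex w x) := by
  unfold ex
  fun_prop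

lemma diff_f0 (M q : ℕ) : Differentiable ℂ (fun w : ℂ => f0 M q w) := by
  unfold f0 zq
  have h1 := diff_ex ((q + 1 : ℕ) : ℝ)
  have h2 := diff_ex ((q + 2 : ℕ) : ℝ)
  have h3 : Differentiable ℂ (fun w : ℂ => ex (w - 1) ((q + 1 : ℕ) : ℝ)) := h1.comp (by fun_prop)
  have h4 : Differentiable ℂ (fun w : ℂ => ex (w - 1) (((q + 1 : ℕ) : ℝ) + 1)) := (diff_ex (((q + 1 : ℕ) : ℝ) + 1)).comp (by fun_prop)
  fun_prop

lemma norm_f0 {C : ℝ} (hC : 0 < C) (M : ℕ) (hM : 1 ≤ M)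
    (hE : ∀ N : ℕ, 1 ≤ N → ‖(∑ q ∈ Finset.range N, en M q) - cM M * N‖ ≤ (C * √M) * √N) (q : ℕ) (w : ℂ) (hw : 3 / 5 < w.re) :
    ‖f0 M q w‖ ≤ (1 + 2 * C) * √M * (‖w - 1‖ * ‖w‖) * ((q + 1 : ℕ) : ℝ) ^ (-(11 / 10) : ℝ) := by
  have hq0 : (0 : ℝ) < ((q + 1 : ℕ) : ℝ) := by positivity
  have hq1 : (1 : ℝ) ≤ ((q + 1 : ℕ) : ℝ) := by exact_mod_cast Nat.succ_le_succ (Nat.zero_le q)
  have hM1 : 1 ≤ √(M : ℝ) := Real.one_le_sqrt.2 (by exact_mod_cast hM)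
  have h1 := norm_zq w (by linarith) hq0
  have h2 := ex_sub_le w (by linarith) hq0 (show ((q + 1 : ℕ) : ℝ) ≤ ((q + 2 : ℕ) : ℝ) by push_cast; linarith)
  have e1 : ((q + 2 : ℕ) : ℝ) - ((q + 1 : ℕ) : ℝ) = 1 := by push_cast; ring
  rw [e1, mul_one, norm_sub_rev] at h2
  have h3 := hE (q + 2) (by omega)
  have h4 : √((q + 2 : ℕ) : ℝ) ≤ 2 * ((q + 1 : ℕ) : ℝ) ^ (1 / 2 : ℝ) := by
    rw [← Real.sqrt_eq_rpow, Real.sqrt_le_left (by positivity), mul_pow, Real.sq_sqrt hq0.le]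
    push_cast
    linarith [Nat.cast_nonneg (α := ℝ) q]
  have e2 : ((q + 1 : ℕ) : ℝ) ^ (1 / 2 : ℝ) * ((q + 1 : ℕ) : ℝ) ^ (-w.re - 1) = ((q + 1 : ℕ) : ℝ) ^ (-w.re - 1 / 2) := by
    rw [← Real.rpow_add hq0]
    congr 1
    ring
  have h5 : ((q + 1 : ℕ) : ℝ) ^ (-w.re - 1) ≤ ((q + 1 : ℕ) : ℝ) ^ (-(11 / 10) : ℝ) :=
    Real.rpow_le_rpow_of_exponent_le hq1 (by linarith)
  have h6 : ((q + 1 : ℕ) : ℝ) ^ (-w.re - 1 / 2) ≤ ((q + 1 : ℕ) : ℝ) ^ (-(11 / 10) : ℝ) :=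
    Real.rpow_le_rpow_of_exponent_le hq1 (by linarith)
  have h7 := norm_cM M
  unfold f0
  calc _ ≤ ‖cM M‖ * ‖zq w ((q + 1 : ℕ) : ℝ)‖ + ‖w - 1‖ * ‖(∑ r ∈ Finset.range (q + 2), en M r) - cM M * ((q + 2 : ℕ) : ℂ)‖ *
        ‖ex w ((q + 1 : ℕ) : ℝ) - ex w ((q + 2 : ℕ) : ℝ)‖ := by
          refine (norm_add_le _ _).trans (le_of_eq ?_)
          rw [norm_mul, norm_mul, norm_mul]
    _ ≤ √M * (‖w - 1‖ * ‖w‖ * ((q + 1 : ℕ) : ℝ) ^ (-w.re - 1)) +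
          ‖w - 1‖ * (C * √M * (2 * ((q + 1 : ℕ) : ℝ) ^ (1 / 2 : ℝ))) * (‖w‖ * ((q + 1 : ℕ) : ℝ) ^ (-w.re - 1)) := by
          apply add_le_add (mul_le_mul (h7.trans hM1) h1 (norm_nonneg _) (by positivity))
          apply mul_le_mul _ h2 (norm_nonneg _) (by positivity)
          apply mul_le_mul_of_nonneg_left _ (norm_nonneg _)
          exact h3.trans (mul_le_mul_of_nonneg_left h4 (by positivity))
    _ = √M * (‖w - 1‖ * ‖w‖) * ((q + 1 : ℕ) : ℝ) ^ (-w.re - 1) +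
          (2 * C) * √M * (‖w - 1‖ * ‖w‖) * (((q + 1 : ℕ) : ℝ) ^ (1 / 2 : ℝ) * ((q + 1 : ℕ) : ℝ) ^ (-w.re - 1)) := by ring
    _ ≤ √M * (‖w - 1‖ * ‖w‖) * ((q + 1 : ℕ) : ℝ) ^ (-(11 / 10) : ℝ) +
          (2 * C) * √M * (‖w - 1‖ * ‖w‖) * ((q + 1 : ℕ) : ℝ) ^ (-(11 / 10) : ℝ) := by
          rw [e2]
          exact add_le_add (mul_le_mul_of_nonneg_left h5 (by positivity)) (mul_le_mul_of_nonneg_left h6 (by positivity))
    _ = _ := by ring

lemma sum11 : Summable (fun q : ℕ => ((q + 1 : ℕ) : ℝ) ^ (-(11 / 10) : ℝ)) :=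
  (summable_nat_add_iff 1).2 (Real.summable_nat_rpow.2 (by norm_num))

lemma sum54 : Summable (fun q : ℕ => ((q + 1 : ℕ) : ℝ) ^ (-(5 / 4) : ℝ)) :=
  (summable_nat_add_iff 1).2 (Real.summable_nat_rpow.2 (by norm_num))

lemma norm_init_le {k : ℕ} (z : Fin (k + 2) → ℂ) : ‖fun i => ((Fin.init z : Fin (k + 1) → ℂ) i).im‖ ≤ ‖fun i => (z i).im‖ := by
  rw [pi_norm_le_iff_of_nonneg (norm_nonneg _)]
  intro i
  exact norm_le_pi_norm (fun i => (z i).im) i.castSucc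

/-- the continuation is holomorphic, with bounds uniform in `M` -/
theorem XX_main (hA : S_AVG) (hS : S_SER) (k : ℕ) :
    (∀ M, 1 ≤ M → DifferentiableOn ℂ (XX k M) (tube (Om k))) ∧
    ∀ K ⊆ Om k, IsCompact K → ∃ (C : ℝ) (N : ℕ), 0 ≤ C ∧ ∀ M : ℕ, 1 ≤ M → ∀ z : Fin (k + 1) → ℂ, (fun i => (z i).re) ∈ K →
      ‖XX k M z‖ ≤ C * (1 + ‖fun i => (z i).im‖) ^ N * √M := by
  induction k with
  | zero =>
    obtain ⟨C, hC, hAV⟩ := hA
    have hE := fun M hM => E_le hAV M hM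
    -- bounds on a compact set
    have hbd : ∀ K ⊆ Om 0, IsCompact K → ∃ A : ℝ, 0 ≤ A ∧ ∀ z : Fin 1 → ℂ, (fun i => (z i).re) ∈ K →
        ‖z 0‖ ≤ (A + 2) * (1 + ‖fun i => (z i).im‖) ∧ ‖z 0 - 1‖ ≤ (A + 2) * (1 + ‖fun i => (z i).im‖) := by
      intro K hK hc
      obtain ⟨A, hA⟩ := hc.exists_bound_of_continuousOn (f := fun p : Fin 1 → ℝ => p 0) (continuous_apply 0).continuousOn
      refine ⟨|A|, abs_nonneg _, fun z hz => ?_⟩
      have h1 := hA _ hz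
      simp only [Real.norm_eq_abs] at h1
      have h2 : |(z 0).im| ≤ ‖fun i => (z i).im‖ := norm_le_pi_norm (fun i => (z i).im) 0
      have h3 := Complex.norm_le_abs_re_add_abs_im (z 0)
      have h4 := le_abs_self A
      have h5 := norm_nonneg (fun i => (z i).im)
      have h6 : ‖z 0 - 1‖ ≤ ‖z 0‖ + 1 := by
        calc ‖z 0 - 1‖ ≤ ‖z 0‖ + ‖(1 : ℂ)‖ := norm_sub_le _ _
          _ = _ := by rw [norm_one]
      have h7 := abs_nonneg A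
      constructor <;> nlinarith
    have hterm : ∀ K ⊆ Om 0, IsCompact K → ∃ A : ℝ, 0 ≤ A ∧ ∀ M : ℕ, 1 ≤ M → ∀ (q : ℕ) (z : Fin 1 → ℂ), (fun i => (z i).re) ∈ K →
        ‖f0 M q (z 0)‖ ≤ A * √M * (1 + ‖fun i => (z i).im‖) ^ 2 * ((q + 1 : ℕ) : ℝ) ^ (-(11 / 10) : ℝ) := by
      intro K hK hc
      obtain ⟨A, hA0, hA⟩ := hbd K hK hc
      refine ⟨(1 + 2 * C) * (A + 2) ^ 2, by positivity, fun M hM q z hz => ?_⟩
      obtain ⟨h1, h2⟩ := hA z hz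
      refine (norm_f0 hC M hM (hE M hM) q (z 0) (hK hz).1).trans ?_
      have h3 : ‖z 0 - 1‖ * ‖z 0‖ ≤ ((A + 2) * (1 + ‖fun i => (z i).im‖)) * ((A + 2) * (1 + ‖fun i => (z i).im‖)) :=
        mul_le_mul h2 h1 (norm_nonneg _) (by positivity)
      calc (1 + 2 * C) * √M * (‖z 0 - 1‖ * ‖z 0‖) * ((q + 1 : ℕ) : ℝ) ^ (-(11 / 10) : ℝ) ≤
          (1 + 2 * C) * √M * (((A + 2) * (1 + ‖fun i => (z i).im‖)) * ((A + 2) * (1 + ‖fun i => (z i).im‖))) *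
            ((q + 1 : ℕ) : ℝ) ^ (-(11 / 10) : ℝ) := by
            apply mul_le_mul_of_nonneg_right _ (by positivity)
            exact mul_le_mul_of_nonneg_left h3 (by positivity)
        _ = _ := by ring
    have hd0 : Differentiable ℂ (fun z : Fin 1 → ℂ => z 0) := differentiable_apply 0
    constructor
    · intro M hM
      have h1 := (hS 1 (Om 0) (fun q z => f0 M q (z 0)) (isOpen_Om 0) (fun q => ((diff_f0 M q).comp hd0).differentiableOn)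
        (fun K hK hc => by
          obtain ⟨A, hA0, hA⟩ := hterm K hK hc
          refine ⟨A * √M, 2, fun q => ((q + 1 : ℕ) : ℝ) ^ (-(11 / 10) : ℝ), sum11, fun q z hz => hA M hM q z hz⟩)).1
      have h2 : DifferentiableOn ℂ (fun z : Fin 1 → ℂ => cM M * z 0) (tube (Om 0)) := (hd0.const_mul _).differentiableOn
      have h3 := h2.add h1
      exact h3
    · intro K hK hc
      obtain ⟨A, hA0, hA⟩ := hterm K hK hc
      obtain ⟨A', hA'0, hA'⟩ := hbd K hK hc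
      obtain ⟨Z, hZ⟩ : ∃ Z : ℝ, Z = ∑' q : ℕ, ((q + 1 : ℕ) : ℝ) ^ (-(11 / 10) : ℝ) := ⟨_, rfl⟩
      have hZ0 : 0 ≤ Z := by rw [hZ]; exact tsum_nonneg fun q => by positivity
      refine ⟨(A' + 2) + A * Z, 2, by positivity, fun M hM z hz => ?_⟩
      have hM1 : 1 ≤ √(M : ℝ) := Real.one_le_sqrt.2 (by exact_mod_cast hM)
      have h1 : HasSum (fun q : ℕ => A * √M * (1 + ‖fun i => (z i).im‖) ^ 2 * ((q + 1 : ℕ) : ℝ) ^ (-(11 / 10) : ℝ))
          (A * √M * (1 + ‖fun i => (z i).im‖) ^ 2 * Z) := by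
        rw [hZ]
        exact sum11.hasSum.mul_left _
      have h2 := tsum_of_norm_bounded h1 (fun q => hA M hM q z hz)
      have h3 := norm_cM M
      obtain ⟨h4, -⟩ := hA' z hz
      have h5 : 1 ≤ 1 + ‖fun i => (z i).im‖ := by linarith [norm_nonneg (fun i => (z i).im)]
      obtain ⟨t, ht⟩ : ∃ t : ℝ, t = 1 + ‖fun i => (z i).im‖ := ⟨_, rfl⟩
      rw [← ht] at h2 h4 h5 ⊢
      have h6 : ‖cM M * z 0‖ ≤ (A' + 2) * t ^ 2 * √M := by
        rw [norm_mul]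
        calc ‖cM M‖ * ‖z 0‖ ≤ 1 * ((A' + 2) * t) := mul_le_mul h3 h4 (norm_nonneg _) zero_le_one
          _ ≤ (A' + 2) * t ^ 2 * 1 := by
              have h7 : t ≤ t ^ 2 := by nlinarith
              have h8 := mul_le_mul_of_nonneg_left h7 (by linarith : 0 ≤ A' + 2)
              linarith
          _ ≤ _ := by
              apply mul_le_mul_of_nonneg_left hM1 (by positivity)
      show ‖cM M * z 0 + ∑' q : ℕ, f0 M q (z 0)‖ ≤ _
      calc ‖cM M * z 0 + ∑' q : ℕ, f0 M q (z 0)‖ ≤ ‖cM M * z 0‖ + ‖∑' q : ℕ, f0 M q (z 0)‖ := norm_add_le _ _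
        _ ≤ (A' + 2) * t ^ 2 * √M + A * √M * t ^ 2 * Z := add_le_add h6 h2
        _ = _ := by ring
  | succ k ih =>
    obtain ⟨ih1, ih2⟩ := ih
    have hci : Continuous (fun p : Fin (k + 2) → ℝ => (Fin.init p : Fin (k + 1) → ℝ)) :=
      continuous_pi fun i => continuous_apply i.castSucc
    have hterm : ∀ K ⊆ Om (k + 1), IsCompact K → ∃ (C : ℝ) (N : ℕ), 0 ≤ C ∧ ∀ M : ℕ, 1 ≤ M → ∀ (n : ℕ) (z : Fin (k + 2) → ℂ),
        (fun i => (z i).re) ∈ K → ‖ex (z (Fin.last (k + 1))) ((n + 1 : ℕ) : ℝ) * XX k (M * (n + 1)) (Fin.init z)‖ ≤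
          C * √M * (1 + ‖fun i => (z i).im‖) ^ N * ((n + 1 : ℕ) : ℝ) ^ (-(5 / 4) : ℝ) := by
      intro K hK hc
      obtain ⟨C, N, hC0, hC⟩ := ih2 ((fun p : Fin (k + 2) → ℝ => (Fin.init p : Fin (k + 1) → ℝ)) '' K) (by
        rintro _ ⟨p, hp, rfl⟩
        exact init_mem (hK hp)) (hc.image hci)
      refine ⟨C, N, hC0, fun M hM n z hz => ?_⟩
      have hq0 : (0 : ℝ) < ((n + 1 : ℕ) : ℝ) := by positivity
      have hq1 : (1 : ℝ) ≤ ((n + 1 : ℕ) : ℝ) := by exact_mod_cast Nat.succ_le_succ (Nat.zero_le n)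
      have h1 := hC (M * (n + 1)) (Nat.mul_pos hM (Nat.succ_pos n)) (Fin.init z) ⟨_, hz, rfl⟩
      have h2 : ‖ex (z (Fin.last (k + 1))) ((n + 1 : ℕ) : ℝ)‖ ≤ ((n + 1 : ℕ) : ℝ) ^ (-(7 / 4) : ℝ) := by
        rw [norm_ex _ hq0]
        apply Real.rpow_le_rpow_of_exponent_le hq1
        have := (hK hz).2 (Fin.last k)
        simp only [Fin.succ_last] at this
        linarith
      have h3 : √((M * (n + 1) : ℕ) : ℝ) = √M * ((n + 1 : ℕ) : ℝ) ^ (1 / 2 : ℝ) := by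
        rw [Nat.cast_mul, Real.sqrt_mul (Nat.cast_nonneg M), Real.sqrt_eq_rpow ((n + 1 : ℕ) : ℝ)]
      have h4 : (1 + ‖fun i => ((Fin.init z : Fin (k + 1) → ℂ) i).im‖) ^ N ≤ (1 + ‖fun i => (z i).im‖) ^ N :=
        pow_le_pow_left₀ (by positivity) (by linarith [norm_init_le z]) N
      have e2 : ((n + 1 : ℕ) : ℝ) ^ (-(7 / 4) : ℝ) * ((n + 1 : ℕ) : ℝ) ^ (1 / 2 : ℝ) = ((n + 1 : ℕ) : ℝ) ^ (-(5 / 4) : ℝ) := by
        rw [← Real.rpow_add hq0]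
        congr 1
        norm_num
      rw [norm_mul]
      calc ‖ex (z (Fin.last (k + 1))) ((n + 1 : ℕ) : ℝ)‖ * ‖XX k (M * (n + 1)) (Fin.init z)‖ ≤
          ((n + 1 : ℕ) : ℝ) ^ (-(7 / 4) : ℝ) * (C * (1 + ‖fun i => ((Fin.init z : Fin (k + 1) → ℂ) i).im‖) ^ N * √((M * (n + 1) : ℕ) : ℝ)) :=
            mul_le_mul h2 h1 (norm_nonneg _) (by positivity)
        _ ≤ ((n + 1 : ℕ) : ℝ) ^ (-(7 / 4) : ℝ) * (C * (1 + ‖fun i => (z i).im‖) ^ N * (√M * ((n + 1 : ℕ) : ℝ) ^ (1 / 2 : ℝ))) := by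
            rw [h3]
            apply mul_le_mul_of_nonneg_left _ (by positivity)
            apply mul_le_mul_of_nonneg_right _ (by positivity)
            exact mul_le_mul_of_nonneg_left h4 hC0
        _ = C * √M * (1 + ‖fun i => (z i).im‖) ^ N * (((n + 1 : ℕ) : ℝ) ^ (-(7 / 4) : ℝ) * ((n + 1 : ℕ) : ℝ) ^ (1 / 2 : ℝ)) := by ring
        _ = _ := by rw [e2]
    have hinit : Differentiable ℂ (fun z : Fin (k + 2) → ℂ => (Fin.init z : Fin (k + 1) → ℂ)) := by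
      rw [differentiable_pi]
      intro i
      exact differentiable_apply i.castSucc
    constructor
    · intro M hM
      have h1 := (hS (k + 2) (Om (k + 1)) (fun n z => ex (z (Fin.last (k + 1))) ((n + 1 : ℕ) : ℝ) * XX k (M * (n + 1)) (Fin.init z))
        (isOpen_Om (k + 1)) (fun n => by
          apply DifferentiableOn.mul
          · exact ((diff_ex ((n + 1 : ℕ) : ℝ)).comp (differentiable_apply (Fin.last (k + 1)))).differentiableOn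
          · exact (ih1 (M * (n + 1)) (Nat.mul_pos hM (Nat.succ_pos n))).comp hinit.differentiableOn (fun z hz => init_mem (p := fun i => (z i).re) hz))
        (fun K hK hc => by
          obtain ⟨C, N, hC0, hC⟩ := hterm K hK hc
          exact ⟨C * √M, N, fun q => ((q + 1 : ℕ) : ℝ) ^ (-(5 / 4) : ℝ), sum54, fun q z hz => hC M hM q z hz⟩)).1
      exact h1
    · intro K hK hc
      obtain ⟨C, N, hC0, hC⟩ := hterm K hK hc
      obtain ⟨Z, hZ⟩ : ∃ Z : ℝ, Z = ∑' q : ℕ, ((q + 1 : ℕ) : ℝ) ^ (-(5 / 4) : ℝ) := ⟨_, rfl⟩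
      have hZ0 : 0 ≤ Z := by rw [hZ]; exact tsum_nonneg fun q => by positivity
      refine ⟨C * Z, N, by positivity, fun M hM z hz => ?_⟩
      have h1 : HasSum (fun q : ℕ => C * √M * (1 + ‖fun i => (z i).im‖) ^ N * ((q + 1 : ℕ) : ℝ) ^ (-(5 / 4) : ℝ))
          (C * √M * (1 + ‖fun i => (z i).im‖) ^ N * Z) := by
        rw [hZ]
        exact sum54.hasSum.mul_left _
      have h2 := tsum_of_norm_bounded h1 (fun q => hC M hM q z hz)
      show ‖∑' n : ℕ, ex (z (Fin.last (k + 1))) ((n + 1 : ℕ) : ℝ) * XX k (M * (n + 1)) (Fin.init z)‖ ≤ _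
      refine h2.trans (le_of_eq ?_)
      ring

end

end Pool.Agent.Run7.h536.MD
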